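import Pool.Agent.Helper65.OH.Defs
import Pool.Agent.Helper28.Few.Defs
import Mathlib.Analysis.SpecialFunctions.Pow.Real

/-!
# Turing machines with several heads on several tapes of dimension `D`: definitions
-/

namespace Pool.Agent.Helper20.MH

open Pool.Agent.Helper65.LinSpace Pool.Agent.Helper78.Mpc Pool.Agent.Helper28.Ram
open Pool.Agent.Helper65.OH (letW mv)

/-- A machine with `K` heads on tapes of dimension `D`; the head number `i` is on the tape number
`tape i`, and every tape is a copy of `ℤ^D`. The state and the contents of the cells are words. In
one step the machine in the state `q`, with its heads on cells with the contents `v₁, …, v_K`, reads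
the letters `a` and `b` of the input word and of the guessed word whose index is written in binary as
`addr q`. Its new state is `next (⟨q⟩ a b ⟨v₁⟩ … ⟨v_K⟩)`, the new content of the cell of the head
number `i` is `write (⟨i⟩ ⟨q⟩ a b ⟨v₁⟩ … ⟨v_K⟩)` (if two heads are on the same cell, the second one
prevails), and the heads move by the displacements written in the new state; here `⟨q⟩` is the
self-delimiting code of `q`. The functions `addr`, `next` and `write` are computed in linear
space. -/
structure MultiHead (D K : ℕ) where
  start : List Bool
  tape : Fin K → Fin K
  addr : List Bool → List Bool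
  next : List Bool → List Bool
  write : List Bool → List Bool
  addr_lin : LinComp addr
  next_lin : LinComp next
  write_lin : LinComp write

/-- A configuration: the state, the positions of the heads and the contents of the cells. -/
structure Conf (D K : ℕ) where
  q : List Bool
  h : Fin K → Fin D → ℤ
  M : Fin K → (Fin D → ℤ) → List Bool

variable {D K : ℕ}

namespace MultiHead

variable (A : MultiHead D K)

/-- The word which the function `next` gets if the heads read the words `v i`. -/
def inp (w y : List Bool) (q : List Bool) (v : Fin K → List Bool) : List Bool :=
  sd q ++ (letW w[bval (A.addr q)]? ++ (letW y[bval (A.addr q)]? ++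
    (List.finRange K).flatMap fun i => sd (v i)))

/-- The words which the heads read. -/
def rd (c : Conf D K) (i : Fin K) : List Bool := c.M (A.tape i) (c.h i)

/-- The new content of the cell of the head number `i`. -/
def wr (w y : List Bool) (c : Conf D K) (i : Fin K) : List Bool :=
  A.write (sd (i : ℕ).bits ++ A.inp w y c.q (A.rd c))

/-- The new state. -/
def nx (w y : List Bool) (c : Conf D K) : List Bool := A.next (A.inp w y c.q (A.rd c))

/-- One step on the input word `w` and the guessed word `y`. The displacement of the head number `i`
in the direction `k` is given by the letters number `2 (i D + k) + 1` and `2 (i D + k) + 2` of the new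
state. -/
def step (w y : List Bool) (c : Conf D K) : Conf D K where
  q := A.nx w y c
  h i k := c.h i k + mv (A.nx w y c) (i * D + k)
  M := (List.finRange K).foldl (fun M i =>
    Function.update M (A.tape i) (Function.update (M (A.tape i)) (c.h i) (A.wr w y c i))) c.M

/-- The configuration after `t` steps. At the start all cells contain the empty word and all heads
are on the origins of their tapes. -/
def conf (A : MultiHead D K) (w y : List Bool) : ℕ → Conf D K
  | 0 => ⟨A.start, fun _ _ => 0, fun _ _ => []⟩
  | t + 1 => A.step w y (A.conf w y t)

/-- Up to the time `r`, the state, the address and the contents of all cells are words of length at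
most `s`. -/
def Fits (w y : List Bool) (r s : ℕ) : Prop :=
  ∀ t ≤ r, (A.conf w y t).q.length ≤ s ∧ (A.addr (A.conf w y t).q).length ≤ s ∧
    ∀ i z, ((A.conf w y t).M i z).length ≤ s

/-- The first letter of the state after `r` steps is `1`. -/
def AcceptsAt (w y : List Bool) (r : ℕ) : Prop := (A.conf w y r).q.head? = some true

/-- `A` accepts the input word `w` with the guessed word `y` at some time `r` and within the
following bounds, where `n` is the length of `w`. States, addresses and the contents of the cells
have at most `s` bits. For `l = ⌊log₂ n⌋ + 1` and `q = D / (2 D - 1)`: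
`r (s + l) ^ q l ^ 4 ≤ C (n + 1) ^ (1 + q)` and `(s + l) l ^ 2 ≤ C (n + 1)`. -/
def Within (C : ℝ) (w y : List Bool) : Prop :=
  ∃ r s : ℕ,
    (r : ℝ) * ((s : ℝ) + ((Nat.log 2 w.length : ℝ) + 1)) ^ ((D : ℝ) / (2 * (D : ℝ) - 1)) *
        ((Nat.log 2 w.length : ℝ) + 1) ^ 4 ≤
      C * ((w.length : ℝ) + 1) ^ (1 + (D : ℝ) / (2 * (D : ℝ) - 1)) ∧
    ((s : ℝ) + ((Nat.log 2 w.length : ℝ) + 1)) * ((Nat.log 2 w.length : ℝ) + 1) ^ 2 ≤
      C * ((w.length : ℝ) + 1) ∧
    A.Fits w y r s ∧ A.AcceptsAt w y r

end MultiHead

end Pool.Agent.Helper20.MH
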