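import Pool.Agent.Helper20.MH.Main
import Pool.Agent.Helper65.RT.Final
import Pool.Agent.Helper96.MH.TRU
import Pool.Agent.Helper96.MH.MLM
import Pool.Agent.Helper46.MH.LSS
import Pool.Agent.Helper56.MH.OKM
import Pool.Agent.Helper83.MH.STM
import Pool.Agent.Helper11.MH.MCM
import Pool.Agent.Helper60.MH.GUA
import Pool.Agent.Helper48.MH.LSG
import Pool.Agent.Helper64.MH.PRM

/-!
# All parts of the simulation of machines with several heads
-/

namespace Pool.Agent.Helper20.MH

theorem parts : Parts where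
  TRU := Pool.Agent.Helper96.MH.tru
  LSS := Pool.Agent.Helper46.MH.lss
  OKM := Pool.Agent.Helper56.MH.okm
  MCM := Pool.Agent.Helper11.MH.mcm Pool.Agent.Helper83.MH.stm
  MLM := Pool.Agent.Helper96.MH.mlm Pool.Agent.Helper56.MH.okm
  GUA := Pool.Agent.Helper60.MH.gua
  LSG := Pool.Agent.Helper48.MH.lsg
  PRM := Pool.Agent.Helper64.MH.prm_ok
  EVM := Pool.Agent.Helper48.MH.evm

open Pool.Agent.Helper65.LinSpace Pool.Agent.Helper28.Ram

/-- **Average-case hardness for machines with several heads on tapes of any dimension.** -/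
theorem mh_avg (c : ℕ) :
    ∃ (L : Set (List Bool)) (s : ℕ → List Bool), DLINSPACE L ∧
      (∀ n, (s n).length = n) ∧
      (∀ w, w ∈ L ↔ Odd ((List.zipWith and (s w.length) w).count true)) ∧
      ∀ (D K : ℕ), 0 < D → 0 < K → ∀ (A : MultiHead D K) (C : ℝ), ∃ c' : ℝ,
        ∀ (n : ℕ) (α : List Bool), ∀ M, M = L ∨ M = Lᶜ →
        ({w : List Bool | w.length = n ∧
          (Alt true (c * n) (fun v => ∃ r, A.AcceptsAt w (α ++ v) r) → w ∈ M) ∧
          (w ∈ M → Alt true (c * n) fun v => A.Within C w (α ++ v))}.ncard : ℝ) ≤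
          2 ^ n / 2 + c' * ((min α.length (n - α.length) : ℕ) + 1) *
            2 ^ (((n : ℝ) + α.length) / 2) :=
  mh_main Pool.Agent.Helper65.RT.theSim parts c

end Pool.Agent.Helper20.MH
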