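import Pool.Agent.Helper20.MH.Num

/-!
# Machines with several heads: the statements of the parts

Every statement comes with its proof in words.
-/

namespace Pool.Agent.Helper20.MH

open Pool.Agent.Helper65.LinSpace Pool.Agent.Helper78.Mpc Pool.Agent.Helper28.Ram Finset Filter
open Pool.Agent.Helper65.OH (kap)
open Pool.Agent.Helper28.Long (ZL)
open Pool.Agent.Helper65.RT (qT CT LSM)

/-! ### The simulation of a system by a parallel machine -/

/-- TRU. The values of the parallel machine are right. Proof. First by induction on `t`: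
`(conf t).1 < 2 ^ sg`, `(conf t).2 z < 2 ^ τ` (`nrec` of `wr`: each step keeps the number or replaces it
by a value of `W`), so `rd M u < 2 ^ (K * τ)` for such `M` (`tab_lt`, `pow_mul`).
Induction on `k`. For `k = 0` both sides are `f0`. Let the claim be true for `k`; put `P = R * c`,
`u t = (conf (k P + t)).1`, `M t = (conf (k P + t)).2`, `v t = rd (M t) (u t)`, `X = x % 2 ^ σ`,
`V = tab (2^τ) J (fun j => M 0 (nb X j))`. The right digests are `td 0 = u 0`,
`td e = tab (2^(K τ)) c (fun r => v ((e - 1) c + r))` for `1 ≤ e ≤ R` and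
`td e = dig (2^(c (K τ))) V (e - 1 - R)` for `R < e`; all are `< 2 ^ a`.
REPLAY: if `dig (2^a) Z 0 = u 0` and `vn Z t' = v t'` for all `t' < t`, then `uz Z t' = u t'` and
`ov Z t' z (M 0 z) = M t' z` for all `t' ≤ t` and `z` (induction on `t'`, by the definition of `conf`).
Claim: `Zt (T k) x e = tab (2^a) e td` for `e ≤ G E`, by induction on `e` (`tab_succ`,
`2^(a e) = (2^a)^e`); one has to show `fg x e Z (T k (fq x e Z)) = td e` for `Z = tab (2^a) e td`, whose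
digits `< e` are those of `td` (`dig_tab`).
`e = 0`: the value is `T k X = u 0 + 2^sg V` (`X % 2^σ = X`).
`R < e`: the value is `T k X`, and `(T k X) / 2^sg = V`.
`1 ≤ e ≤ R`: let `k' = e - 1`. For `t' < k' c`: `1 + t' / c < e`, so
`vn Z t' = dig (2^(K τ)) (td (1 + t' / c)) (t' % c) = v t'`; so `uz Z (k' c) = u (k' c)` by REPLAY. Let
`y = B (u (k' c)) < 2^σ`; the value is `w0 = T k y`, and `w0 / 2^sg = tab (2^τ) J (fun j => M 0 (nb y j))`.
If `z = nb y j` for some `j < J` then `old y w0 z = M 0 z` (induction: after `n` steps of the `nrec` the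
number is `M 0 z` if `z = nb y j` for some `j < n`). Claim: after `t ≤ c` steps of the `nrec` in `blk` the
number is `w = tab (2^(K τ)) t (fun r => v (k' c + r))`. Step: `w < 2^(K τ t) ≤ 2^a`,
`min e (R + 1) = e`, so `ext e Z w` has the digits `td i` for `i < e` and the digit `w` at `e`; so
`vn (ext e Z w) t' = v t'` for `t' < k' c + t` (for `t' = k' c + r`, `r < t`: `1 + t' / c = e`,
`t' % c = r`). By REPLAY `uz (ext e Z w) (k' c + t) = u (k' c + t)`, and for `i < K` the cell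
`z = cell (u (k' c + t)) i` is some `nb y j` (hypothesis with the time `k P + k' c`), so `old y w0 z = M 0 z`
and `ov (ext e Z w) (k' c + t) z (M 0 z) = M (k' c + t) z`. So `rs e Z w0 w t = v (k' c + t)`.
The value at the end: `Z = tab (2^a) (G E) td`. For `t' < R c`: `1 + t' / c ≤ R < G E`, so `vn Z t' = v t'`,
and by REPLAY `uz Z (R c) = u (R c)`, `ov Z (R c) z (M 0 z) = M (R c) z`. For `j < J`:
`j / (c K) < G E - (1 + R)` (here `K > 0`), so `pc Z j = dig (2^τ) (dig (2^(c (K τ))) V (j / (c K))) (j % (c K))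
= dig (2^τ) V j = M 0 (nb X j)` (`dig q (dig (q^m) V a) b = dig q V (a m + b)` for `b < m`). So
`fo x Z = u (R c) + 2^sg * tab (2^τ) J (fun j => M (R c) (nb X j))`. -/
def TRU_stmt : Prop := ∀ (s : Sys) (E G d : ℕ), s.Ok → 1 + s.R ≤ G * E →
    s.J ≤ (G * E - (1 + s.R)) * (s.c * s.K) →
    (∀ t r i, r < s.c → i < s.K →
      ∃ j < s.J, s.nb (s.B (s.conf t).1) j = s.cell (s.conf (t + r)).1 i) →
    ∀ k x, (s.mach E G d).T k x = (s.conf (k * (s.R * s.c))).1 +
      2 ^ s.sg * tab (2 ^ s.τ) s.J fun j => (s.conf (k * (s.R * s.c))).2 (s.nb (x % 2 ^ s.σ) j)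

/-- A family of systems whose parameters and functions are computed in linear space. -/
structure SLS {α : Type} [Ctx α] (s : α → Sys) (C : α → ℕ) : Prop where
  sg : LS (fun z => (s z).sg)
  τ : LS (fun z => (s z).τ)
  K : LS (fun z => (s z).K)
  J : LS (fun z => (s z).J)
  σ : LS (fun z => (s z).σ)
  c : LS (fun z => (s z).c)
  R : LS (fun z => (s z).R)
  u0 : LS (fun z => (s z).u0)
  M0 : LS (fun z => (s z).M0)
  cell : LS (fun z : α × ℕ × ℕ => (s z.1).cell z.2.1 z.2.2)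
  N : LS (fun z : α × ℕ × ℕ => (s z.1).N z.2.1 z.2.2)
  W : LS (fun z : α × ℕ × ℕ × ℕ => (s z.1).W z.2.1 z.2.2.1 z.2.2.2)
  B : LS (fun z : α × ℕ => (s z.1).B z.2)
  nb : LS (fun z : α × ℕ × ℕ => (s z.1).nb z.2.1 z.2.2)
  bd : LS C
  ok : ∀ z, (s z).Ok
  hC1 : ∀ z, 2 ^ ((s z).a * ((s z).R + 2)) ≤ C z
  hC2 : ∀ z, 2 ^ (s z).b ≤ C z
  hC3 : ∀ z, 2 ^ (s z).σ ≤ C z

/-- LSS. The parallel machines of a family of systems form a family computed in linear space. `Ok`: all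
functions are bounded: `x % 2^σ`, `B < 2^σ`; `% 2^a`; `fo < 2^sg * (2^τ)^J = 2^b`, since `uz < 2^sg`
(`hN`, and `% 2^sg` for `t = 0`), `ov Z t z r < 2^τ` for `r < 2^τ` (`hW`), `pc < 2^τ`; `f0` is similar;
`a, b > 0` as `sg > 0`. The exponents `a`, `c (K τ)`, `K τ`, `sg`, `τ` are at most `a (R + 2)`, so all powers of `2`
are at most `C`: `LS.pow_of_le`; `2^(a * min e (R + 1)) ≤ 2^(a (R + 2)) ≤ C` for every `e`. In `LS.nrec` the
step function must be in the class for all arguments: in `blk` replace first `t` by `min t c` in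
`2^(K τ t)` (`nrec` depends only on the steps before the end). Bounds for the intermediate
values of the `nrec`: `uz`: `2^sg`; `wr`, `ov`: `r + 2^τ`; `old`: `2^τ`; `blk`: after `t` steps
`< 2^(K τ t) ≤ 2^a` (as `rs < 2^(K τ)`). `LS.tab` in `rs`: the digits are `< 2^τ` (`old < 2^τ` and `ov`), and
`(2^τ)^K ≤ 2^a`; in `fo`: `(2^τ)^J ≤ 2^b ≤ C`. Compare `Pool/Agent/Helper54/OH/MLS.lean` for the way to
compose families (`LS.comp`). -/
def LSS_stmt : Prop := ∀ {α : Type} [Ctx α] {s : α → Sys} {C E G d : α → ℕ}, SLS s C →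
    LS E → LS G → LS d → (∀ z, 0 < E z) → (∀ z, 0 < G z) →
    (∀ z, 2 ^ ((s z).mach (E z) (G z) (d z)).nv (G z) ≤ C z) →
    (∀ z, 2 ^ ((s z).σ * E z) ≤ C z) →
    LSM (fun z => (s z).mach (E z) (G z) (d z)) C

/-! ### The systems of the machines -/

/-- OKM. The system of the parameters `m` satisfies the bounds, and the heads do not leave the
neighbourhood during `c` steps. Proof. CODE: if `u < 2^(S+1)` and `f k < 2^κ` for `k < K D`, then
`mk' u f < 2^(S + 1 + κ (K D))`, `wq (mk' u f) = u` and `cq (mk' u f) k = f k` for `k < K D` (`tab_lt`,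
`dig_tab`). Always `cq q k < 2^κ`. `capN_lt : capN S v < 2^(S+1)`. So `fN`, `fW`, `u0` (`2^(κ-1) < 2^κ`) are
bounded; `fB < 2^(κ (K D))` as `cq / c ≤ cq`.
(1) For `k < K D` the digits `cq` of `q` and `fN q v` differ by at most `1`: if `accN (wq q) ≠ 0` or
`bad q v ≠ 0` they are equal; otherwise `viol q (nu q v) = 0`, so all terms of this sum are `0`, that is
`mi ≤ cq + pl`, `cq + pl - mi < 2^κ`, and `pl, mi ≤ 1`. So the digits of `(conf t).1` and `(conf (t + r)).1`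
differ by at most `r`.
(2) Let `r < c`, `i < K`, `a k = cq (conf t).1 (i D + k)`, `a' k = cq (conf (t + r)).1 (i D + k)`
(`i D + k < K D` for `k < D`), `δ k = a' k + c - a k / c * c`. As `a k / c * c ≤ a k < a k / c * c + c` and
`|a' k - a k| < c`, one has `δ k < 3 c` (and the subtraction is a true one). Let
`j = i + K * tab (3 c) D δ < K * (3 c)^D`. Then `j % K = i`, `j / K = tab (3 c) D δ`, `dig (3 c) (j / K) k = δ k`,
`dig (2^κ) (fB (conf t).1) (i D + k) = a k / c`, and `(a k / c * c + δ k - c) % 2^κ = a' k % 2^κ = a' k`; so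
`nb (fB (conf t).1) j = cell (conf (t + r)).1 i` (`tab_congr`). -/
def OKM_stmt : Prop := ∀ m : Prm, 0 < m.κ → 0 < m.c →
    m.sys.Ok ∧ ∀ t r i, r < m.sys.c → i < m.sys.K →
      ∃ j < m.sys.J, m.sys.nb (m.sys.B (m.sys.conf t).1) j = m.sys.cell (m.sys.conf (t + r)).1 i

/-- `m` has the parameters of the machine `A` with the codes `eA`, `eN`, `eW`. -/
structure ParM {D K : ℕ} (A : MultiHead D K) (eA eN eW c0 : ℕ) (w y : List Bool) (m : Prm) :
    Prop where
  h_eA : m.eA = eA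
  h_eN : m.eN = eN
  h_eW : m.eW = eW
  h_st : m.st = num A.start
  h_x : m.x = num w
  h_y : m.y = num y
  h_D : m.D = D
  h_K : m.K = K
  h_tp : ∀ i : Fin K, m.tpN i = (A.tape i : ℕ)
  pos_κ : 0 < m.κ
  h_Λ : c0 * (m.S + 1) ≤ m.Λ
  h_β : c0 * (m.S + 1) + m.Λ ≤ m.β
  h_B : 2 ^ (m.S + 1) ≤ m.B

/-- The functions of `A` are computed correctly for words of length at most `(2 K + 2) S + 3 K + 6`
(the length of the longest word which `write` gets is at most `(2 K + 1) + (2 S + 1) + 2 + 2 +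
K (2 S + 1)`). -/
structure FnsM {D K : ℕ} (A : MultiHead D K) (m : Prm) : Prop where
  addr : Good A.addr m.eA m.S m.Λ m.β m.B ((2 * K + 2) * m.S + 3 * K + 6)
  next : Good A.next m.eN m.S m.Λ m.β m.B ((2 * K + 2) * m.S + 3 * K + 6)
  write : Good A.write m.eW m.S m.Λ m.β m.B ((2 * K + 2) * m.S + 3 * K + 6)

/-- The number of the cell `z` of the tape `i`. -/
def cz {D : ℕ} (m : Prm) (i : ℕ) (z : Fin D → ℤ) : ℕ :=
  i + (m.K + 1) * tab (2 ^ m.κ) D fun k =>
    if h : k < D then (z ⟨k, h⟩ + 2 ^ (m.κ - 1)).toNat else 0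

/-- The cells of the box. -/
def InBox {D : ℕ} (κ : ℕ) (z : Fin D → ℤ) : Prop :=
  ∀ k, 0 ≤ z k + 2 ^ (κ - 1) ∧ z k + 2 ^ (κ - 1) < 2 ^ κ

/-- State `u` and contents `M` of the system code the configuration `C`. -/
structure GoodM {D K : ℕ} (m : Prm) (C : Conf D K) (u : ℕ) (M : ℕ → ℕ) : Prop where
  wq : m.wq u = num C.q
  len : C.q.length ≤ m.S
  cq : ∀ (i : Fin K) (k : Fin D), ((m.cq u (i * D + k) : ℕ) : ℤ) = C.h i k + 2 ^ (m.κ - 1)
  mem : ∀ (i : Fin K) (z : Fin D → ℤ), InBox m.κ z → M (cz m i z) = capN m.S (num (C.M i z))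

/-- STM. One step. (Compare `Pool/Agent/Helper75/OH/STEP.lean`, the same for one head, and
`Pool/Agent/Helper65/OH/GEO.lean`.) Proof. From `cq`: every `C.h i` is in the box (the digits are
`< 2^κ`), and `cell u i = cz m (A.tape i) (C.h i)` (`h_tp`, `tab_congr`). So the digit `i` of `v = rd M u` is
`capN S (num (A.rd C i))`, which is `num (A.rd C i)` if this word has length `≤ S` and `0` otherwise.
`adN u = num (A.addr C.q)` if this word has length `≤ S`, and `0` otherwise (`Good`, `capN`), and then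
`adr u = bval (A.addr C.q)` (`num_eq_bval` in `Pool/Agent/Helper11/Ram/MCOR.lean`). Suppose that `adN u` and all
`vi v i` are nonzero. Then `inpN u v = num (A.inp w y C.q (A.rd C))`: `sdN_num`, `letN_num`, `lw (codeO o) =
num (letW o)` (by cases), `catN_num`, and `vec v = num (flatMap)` (induction on the number of the heads,
`List.finRange`; `num [] = 1`). Lengths: `|inp| ≤ (2 S + 1) + 4 + K (2 S + 1)`, `|sd i.bits| ≤ 2 K + 1` (`i < K`,
`bitsN_eq`, `length_sd`, `|i.bits| ≤ i`). So `nu u v` is the number of the new state, or `0` if it is too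
long, and `nw u v i = capN S (num (A.wr w y C i))`. For `nu ≠ 0`: `pl nu k - mi nu k = mv (new state) k`
(`letN_num`). `viol = 0` if and only if the new positions are in the box. So `bad u v = 0` if and only if
the address, the words which are read and the new state have length `≤ S` and the new positions are in
the box. If `bad u v ≠ 0` the new state is `mk' 0 _`. If `bad u v = 0`: `wq`, `len`, `cq` by CODE (see OKM; the
remainders change nothing). `mem`: for a tape `τ` and a cell `z` of the box let `Z = cz m τ z`. `cz` is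
injective (tape numbers `< K + 1`, cells of the box: `toNat` digits `< 2^κ`), so `cell u i = Z` if and only if
`A.tape i = τ` and `C.h i = z`. `wr u v Z r` is `nrec` over `i < K`, and `(A.step w y C).M τ z` is `foldl` over
`List.finRange K`; by induction both are the result of the last `i` with `A.tape i = τ`, `C.h i = z`, that is
`nw u v i = capN S (num (A.wr w y C i))`, or the old content. -/
def STM_stmt : Prop := ∀ {D K : ℕ} (A : MultiHead D K) (eA eN eW c0 : ℕ) (w y : List Bool)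
    (m : Prm), ParM A eA eN eW c0 w y m → FnsM A m →
    ∀ (C : Conf D K) (u : ℕ) (M : ℕ → ℕ), GoodM m C u M → C.q.head? ≠ some true →
    (m.wq (m.fN u (m.sys.rd M u)) = 0 ∨
      GoodM m (A.step w y C) (m.fN u (m.sys.rd M u)) fun z => m.sys.wr u (m.sys.rd M u) z (M z)) ∧
    ((A.addr C.q).length ≤ m.S → (∀ i, (A.rd C i).length ≤ m.S) →
      (A.step w y C).q.length ≤ m.S → (∀ i, InBox m.κ ((A.step w y C).h i)) →
      GoodM m (A.step w y C) (m.fN u (m.sys.rd M u)) fun z => m.sys.wr u (m.sys.rd M u) z (M z))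

/-- MCM (may assume STM). The machines. Proof. Let `eA`, `eN`, `eW` be the codes of `addr`, `next`,
`write` and `c1` the sum of the constants in `fnN_spec` (`Mpc/Words.lean`), `c0 = (c1 + 1) (4 K + 12)`; then
`ParM` implies `FnsM` (`c1 (S + |u| + 2) ≤ c1 ((2 K + 3) S + 3 K + 8) ≤ c0 (S + 1)`, and
`c1 + Λ + S + |u| + 1 ≤ c0 (S + 1) + Λ`). Write `u t`, `M t` for the state and the contents of the system at the
time `t`, `C t` for the configuration of `A`.
(1) Once `wq = 0` it remains `0` (`fnN _ _ _ _ _ 0 = 0`, so `adN = 0` and `bad ≠ 0`). If `accN (wq (u t)) = 1`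
then `wq (u (t + 1)) = wq (u t)`. The start is good, or `wq = 0`: `wq (u 0) = capN S (num start)`, which is `0`
if the word is too long; the positions are `0`, and all contents are `1 = num []` (`capN S 1 = 1`).
(2) First claim. Let `t` be the first time with `accN (wq (u t)) = 1`. By induction, for `t' ≤ t`:
`wq (u t') = 0` or `GoodM` (STM; for `t' < t`, if `GoodM` then `C t'` does not accept, since
`accN (num q) = 1` if `q.head? = some true`). As `accN 0 = 0`, `GoodM` holds at the time `t` and `C t`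
accepts.
(3) Second claim. Let `r' ≤ r` be the first accepting time. By induction `GoodM` holds at all times
`t' ≤ r'`: the lengths are `≤ S` by `Fits`, `|h i k| ≤ t' + 1 ≤ r < 2^(κ-1)`. Then `accN (wq (u r')) = 1` and this
remains true. -/
def MCM_stmt : Prop := ∀ {D K : ℕ} (A : MultiHead D K), ∃ eA eN eW c0 : ℕ,
    ∀ (w y : List Bool) (m : Prm), ParM A eA eN eW c0 w y m →
    (∀ t, accN (m.wq (m.sys.conf t).1) = 1 → ∃ r, A.AcceptsAt w y r) ∧
    ∀ r t, A.Fits w y r m.S → A.AcceptsAt w y r → r < 2 ^ (m.κ - 1) → r ≤ t →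
      accN (m.wq (m.sys.conf t).1) = 1

/-- A family of parameters which are computed in linear space. -/
structure PFM {α : Type} [Ctx α] (m : α → Prm) (C : α → ℕ) : Prop where
  eA : LS (fun z => (m z).eA)
  eN : LS (fun z => (m z).eN)
  eW : LS (fun z => (m z).eW)
  st : LS (fun z => (m z).st)
  x : LS (fun z => (m z).x)
  y : LS (fun z => (m z).y)
  hΛ : LS (fun z => (m z).Λ)
  hβ : LS (fun z => (m z).β)
  hB : LS (fun z => (m z).B)
  D : LS (fun z => (m z).D)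
  K : LS (fun z => (m z).K)
  tp : LS (fun z => (m z).tp)
  S : LS (fun z => (m z).S)
  κ : LS (fun z => (m z).κ)
  c : LS (fun z => (m z).c)
  R : LS (fun z => (m z).R)
  bd : LS C
  b1 : ∀ z, 0 < (m z).β
  b2 : ∀ z, (m z).β ^ (m z).Λ ≤ C z
  b3 : ∀ z, 0 < (m z).κ
  b4 : ∀ z, 0 < (m z).c
  b5 : ∀ z, (3 * (m z).c) ^ (m z).D ≤ C z
  b6 : ∀ z, 2 ^ (m z).κ ≤ C z
  b7 : ∀ z, (2 ^ (m z).κ) ^ (m z).D ≤ C z
  hC1 : ∀ z, 2 ^ ((m z).sys.a * ((m z).sys.R + 2)) ≤ C z
  hC2 : ∀ z, 2 ^ (m z).sys.b ≤ C z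
  hC3 : ∀ z, 2 ^ (m z).sys.σ ≤ C z

/-- MLM (may assume OKM). The systems form a family computed in linear space. Compare
`Pool/Agent/Helper54/OH/MLS.lean` (the same for one head: `PF`, `comp`, and one lemma for each function,
with the lemmas `LS_tab`, `LS_accN` and those for `fnN`, `capN`, `sdN`, `catN`, `letN`, `bitsN` in
`Mpc/Words.lean` and `Mpc/Univ.lean`). `S + 1 ≤ sys.a`, `κ (K D) + 1 = sys.σ`, so all powers of `2` are at most
`C`. `vec`: `nrec` with `K` steps; the intermediate values are numbers of words (or `0`) of length at most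
`K (2 (S + 1) + 1)`, so they are at most `2^(K (2 S + 3) + 1)`; here `K (S + 1) ≤ sys.a` (as `c ≥ 1`),
so `2^(K (2 S + 3) + 1) ≤ (2 C)^3`. `viol` and `bad` by `LS.sum_le`, `fN`, `fB`, `cell`, `nb` by `LS_tab` (or
`LS.tab`), `J = K * (3 c)^D` by `LS.pow_of_le`. -/
def MLM_stmt : Prop := ∀ {α : Type} [Ctx α] {m : α → Prm} {C : α → ℕ}, PFM m C →
    SLS (fun z => (m z).sys) C

/-- GUA. The parameters which are replaced by trivial ones if they are not admissible. Let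
`n = log x`, `g = gd n …`. If `g = 0` then `D = K = S = R = 0`, `c = E = G = 1`, `d = 0`: `sg = a = b = σ = 1`,
`J = 0`, and all claims are clear (`qT n ≥ 1`). If `g ≠ 0` then all factors of `gd` are `1`;
`capPow (3 c) D (4 (n + 1)) ≤ 4 (n + 1)` gives `capPow (3 c) D (4 (n + 1)) = (3 c)^D`, so
`sys.a = S + 1 + κ (K D) + c (K (S + 1))` and `sys.b = S + 1 + κ (K D) + K (3 c)^D (S + 1)` are the numbers in `gd`,
and `Par` is literally what `gd` says (`wn = a E`, `wv = E b`). Powers: `a (R + 2) ≤ a (G E + 1) ≤ 2 a (G E) ≤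
8 qT n ≤ 8 (n + 1)`, `b ≤ 4 qT n`, `σ ≤ 4 qT n`, `κ = kap n ≤ 10 (n + 1)`, `κ D ≤ κ (K D) ≤ 4 qT n` if `K ≠ 0`; if
`K = 0` and `g ≠ 0` then `κ D` is not bounded, see the factor `le01 D (ll n)`: `κ D ≤ 10 (ll n)^2 ≤ 30 (n + 1)`.
`(3 c)^D ≤ 4 (n + 1)`. And `two_pow_log_le : 2 ^ (k * (log x + 1)) ≤ (x + 2) ^ (2 k)`,
`CT x = (x + 2)^4000`. -/
def GUA_stmt : Prop := ∀ (eA eN eW st x y D K tp S c R E G d g : ℕ),
    g = gd (Nat.log 2 x) D K S c R E G d →
    ∀ m : Prm, m = prm g eA eN eW st x y D K tp S c R →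
    Pool.Agent.Helper65.RT.Par (Nat.log 2 x) (m.sys.mach (ifz g 1 E) (ifz g 1 G) (ifz g 0 d)) ∧
    (0 < m.κ ∧ 0 < m.c ∧ 0 < ifz g 1 E ∧ 0 < ifz g 1 G) ∧
    1 + m.sys.R ≤ ifz g 1 G * ifz g 1 E ∧
    m.sys.J ≤ (ifz g 1 G * ifz g 1 E - (1 + m.sys.R)) * (m.sys.c * m.sys.K) ∧
    (0 < m.β ∧ m.β ^ m.Λ ≤ CT x ∧ (3 * m.c) ^ m.D ≤ CT x ∧ 2 ^ m.κ ≤ CT x ∧
      (2 ^ m.κ) ^ m.D ≤ CT x ∧ 2 ^ (m.sys.a * (m.sys.R + 2)) ≤ CT x ∧ 2 ^ m.sys.b ≤ CT x ∧
      2 ^ m.sys.σ ≤ CT x) ∧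
    (g ≠ 0 → S ≤ ZL (Nat.log 2 x))

/-- LSG. The function `gd` and the parameters are computed in linear space (`capPow`, `ZL`: see
`Pool/Agent/Helper28/Long/MLS.lean`, `qT n = n / ll n + 1`, `kap n = 4 ll n + 6`; `2 ^ (2 * ll n)` by
`LS.pow_of_le`, `CR x = (x + 2) ^ 8000`). -/
def LSG_stmt : Prop := ∀ {α : Type} [Ctx α] {n D K S c R E G d : α → ℕ}, LS n → LS D → LS K →
    LS S → LS c → LS R → LS E → LS G → LS d →
    LS (fun z => gd (n z) (D z) (K z) (S z) (c z) (R z) (E z) (G z) (d z))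

/-- PRM. The parameters for large `n`. Put `N = n + 1`, `L = log₂ n + 1` (the number `⌊log₂ n⌋ + 1 = ll n`),
`t = s + L`, `p = 1 / (2 D - 1)`, so `q = D / (2 D - 1) = (1 + p) / 2` and `1 + q = (3 + p) / 2`. Hypotheses:
`r t^q L^4 ≤ C N^(1 + q)` and `t L^2 ≤ C N`. Let `Q = N / (L^(3/2) t)`; by the second hypothesis
`Q ≥ L^(1/2) / C`, which is `≥ 1` and as large as we like for large `n`. All constants `c1, c2, …` depend on
`D, K, C` only; `kap n = 4 L + 6 ≤ 10 L`. Choose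
`c = ⌊Q^p⌋` (so `1 ≤ c`, `Q^p / 2 ≤ c ≤ Q^p ≤ Q`), `R = ⌊Q / c⌋` (so `1 ≤ R`, `Q / 2 ≤ R c ≤ Q`). Since
`c^D ≤ Q^(p D) ≤ Q` (as `p D = D / (2 D - 1) ≤ 1`), `c^(D-1) ≤ Q / c`. Let `F = 1 + R + (3^D c^(D-1) + 1)`; then
`F ≤ c1 Q / c`, and `K (3 c)^D = 3^D c^(D-1) (c K) ≤ (F - (1 + R)) (c K)`. Let `E = G = ⌈√F⌉`
(`Nat.sqrt F + 1`): `F ≤ G E ≤ 4 F`, `E ≤ 2 √F ≤ c2 (Q / c)^(1/2)`.
(a) `a = s + 1 + kap n (K D) + c (K (s + 1)) ≤ c3 c t`, so `G a E ≤ 4 F a ≤ c4 Q t = c4 N / L^(3/2)`.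
(b) `b ≤ c5 c^D t` and `E b ≤ c6 (Q / c)^(1/2) c^D t = c6 Q^(1/2) c^(D - 1/2) t ≤ c6 Q^(1/2) Q^(1/2) t =
c6 N / L^(3/2)` (as `p (D - 1/2) = 1/2`). So `G a E + E b ≤ 4 N / (2 L) ≤ 4 qT n` for large `n`
(`qT n = ⌊n / ll n⌋ + 1 ≥ N / (2 L)`).
(c) `(3 c)^D ≤ 3^D Q ≤ 4 (n + 1)` for large `n` (as `Q ≤ N / L^(5/2)`), so `capPow` is the power.
(d) Let `d = r / (R c) + 1` (so `r ≤ d R c`), `d ≤ 2 r / Q + 1`. First
`r / Q · (Q / c)^(1/2) ≤ √2 r Q^(-1) Q^((1-p)/2) = √2 r Q^(-q) = √2 r L^(3 q / 2) t^q N^(-q) ≤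
√2 C N L^(3/2 - 4)` (as `q ≤ 1`), and `(Q / c)^(1/2) ≤ Q^(1/2) ≤ N^(1/2)`; so `d E ≤ c7 N / L^(5/2)` and
`d (G + 2) ≤ 3 d G ≤ 4 qT n` for large `n`, `(d + 1) ((kap n (K D) + 1) E) ≤ c8 L d E ≤ 4 (n + 1)`.
(e) `r / Q = r L^(3/2) t / N ≤ C N^(1 + q) t^(1 - q) L^(3/2 - 4) / N = C N^q t^(1 - q) L^(-5/2)
≤ C' N L^(-5/2)` (as `t ≤ C N`, `1 - q ≥ 0`); so `(d + 1) (kap n (K D) + 1) ≤ c9 L d ≤ c10 N / L^(3/2)
≤ 4 qT n` for large `n`.
(f) `s ≤ C N / L^2 ≤ ZL n` for large `n` (compare `Pool/Agent/Helper28/Long/Par.lean`).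
(g) `D ≤ ll n` and `r ≤ C N^2 < 2^(kap n - 1)` for large `n` (`(n + 2)^4 < 2^(kap n - 1)`, see PAR5 in
`Pool/Agent/Helper59/OH/PAR5.lean`). All numbers `s, c, R, E, G, d` are `< 4 n + 6` (by (a)-(e) they are at most
`4 (n + 1)`). -/
def PRM_stmt : Prop := ∀ (D K : ℕ) (C : ℝ), 0 < D → 0 < K → ∀ᶠ n : ℕ in atTop, ∀ r s : ℕ,
    (r : ℝ) * ((s : ℝ) + ((Nat.log 2 n : ℝ) + 1)) ^ ((D : ℝ) / (2 * (D : ℝ) - 1)) *
        ((Nat.log 2 n : ℝ) + 1) ^ 4 ≤ C * ((n : ℝ) + 1) ^ (1 + (D : ℝ) / (2 * (D : ℝ) - 1)) →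
    ((s : ℝ) + ((Nat.log 2 n : ℝ) + 1)) * ((Nat.log 2 n : ℝ) + 1) ^ 2 ≤ C * ((n : ℝ) + 1) →
    r < 2 ^ (kap n - 1) ∧ s < 4 * n + 6 ∧
    ∃ c R E G d : ℕ, gd n D K s c R E G d ≠ 0 ∧ r ≤ d * (R * c) ∧
      c < 4 * n + 6 ∧ R < 4 * n + 6 ∧ E < 4 * n + 6 ∧ G < 4 * n + 6 ∧ d < 4 * n + 6

/-- EVM. For large `n` the machines are as in `ParM`. (`ev_par` in `Pool/Agent/Helper28/Long/Par.lean`
with `S = 0`, `Z = S`.) -/
def EVM_stmt : Prop := ∀ c0 : ℕ, ∀ᶠ n : ℕ in atTop, ∀ S ≤ ZL n,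
    c0 * (S + 1) ≤ LW n ∧ c0 * (S + 1) + LW n ≤ 2 ^ (2 * ll n) ∧
      ∀ x, Nat.log 2 x = n → 2 ^ (S + 1) ≤ CR x

end Pool.Agent.Helper20.MH
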