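import Pool.Agent.Helper20.MH.Goals
import Pool.Agent.Helper28.Few.Main
import Pool.Agent.Helper54.OH.MLS

/-!
# Machines with several heads on tapes of dimension `D` are weaker than linear space
-/

namespace Pool.Agent.Helper20.MH

open Pool.Agent.Helper65.LinSpace Pool.Agent.Helper78.Mpc Pool.Agent.Helper28.Ram Finset Filter
open Pool.Agent.Helper65.OH (kap)
open Pool.Agent.Helper28.Long (ZL)
open Pool.Agent.Helper65.RT (qT CT LSM Sim)

/-- The parts of the proof. -/
structure Parts : Prop where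
  TRU : TRU_stmt
  LSS : LSS_stmt
  OKM : OKM_stmt
  MCM : MCM_stmt
  MLM : MLM_stmt
  GUA : GUA_stmt
  LSG : LSG_stmt
  PRM : PRM_stmt
  EVM : EVM_stmt

/-! ### The simulation -/

/-- The base of the digits of the code of the parameters. -/
def bM (x : ℕ) : ℕ := 4 * Nat.log 2 x + 6

/-- The number of codes of parameters. -/
def NM (x : ℕ) : ℕ := bM x ^ 6

/-- The value of `gd` for the parameters coded by `T`. -/
def gM (e x T : ℕ) : ℕ :=
  gd (Nat.log 2 x) (Nat.unpair e).1 (Nat.unpair (Nat.unpair e).2).1 (dig (bM x) T 0)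
    (dig (bM x) T 1) (dig (bM x) T 2) (dig (bM x) T 3) (dig (bM x) T 4) (dig (bM x) T 5)

/-- The parameters coded by `T`. -/
def pM (e x y T : ℕ) : Prm :=
  prm (gM e x T) (Nat.unpair (Nat.unpair (Nat.unpair (Nat.unpair e).2).2).2).1
    (Nat.unpair (Nat.unpair (Nat.unpair (Nat.unpair (Nat.unpair e).2).2).2).2).1
    (Nat.unpair (Nat.unpair (Nat.unpair (Nat.unpair (Nat.unpair (Nat.unpair e).2).2).2).2).2).1
    (Nat.unpair (Nat.unpair (Nat.unpair (Nat.unpair (Nat.unpair (Nat.unpair e).2).2).2).2).2).2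
    x y (Nat.unpair e).1 (Nat.unpair (Nat.unpair e).2).1
    (Nat.unpair (Nat.unpair (Nat.unpair e).2).2).1 (dig (bM x) T 0) (dig (bM x) T 1)
    (dig (bM x) T 2)

/-- The parallel machine of the parameters coded by `T`. -/
def mM (e x y T : ℕ) : Pool.Agent.Helper65.RT.Mach :=
  (pM e x y T).sys.mach (ifz (gM e x T) 1 (dig (bM x) T 3)) (ifz (gM e x T) 1 (dig (bM x) T 4))
    (ifz (gM e x T) 0 (dig (bM x) T 5))

/-- Nonzero if the parameters coded by `T` are admissible and the machine with the code `e` accepts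
in the simulation with these parameters. -/
noncomputable def accM (P : Sim) (e x y T : ℕ) : ℕ :=
  gM e x T * accN ((pM e x y T).wq (P.sim (Nat.log 2 x) (mM e x y T)))

theorem mM_def (e x y T : ℕ) : mM e x y T =
    (pM e x y T).sys.mach (ifz (gM e x T) 1 (dig (bM x) T 3))
      (ifz (gM e x T) 1 (dig (bM x) T 4)) (ifz (gM e x T) 0 (dig (bM x) T 5)) := rfl

theorem nv_mach (s : Sys) (E G d : ℕ) : (s.mach E G d).nv G =
    (s.mach E G d).G * (s.mach E G d).wn + (s.mach E G d).wv := rfl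

theorem mach_K (s : Sys) (E G d : ℕ) : (s.mach E G d).K = d := rfl
theorem mach_G (s : Sys) (E G d : ℕ) : (s.mach E G d).G = G := rfl
theorem mach_E (s : Sys) (E G d : ℕ) : (s.mach E G d).E = E := rfl
theorem mach_σ (s : Sys) (E G d : ℕ) : (s.mach E G d).σ = s.σ := rfl
theorem mach_root (s : Sys) (E G d : ℕ) : (s.mach E G d).root = 0 := rfl

theorem gua (H : Parts) (e x y T : ℕ) :
    Pool.Agent.Helper65.RT.Par (Nat.log 2 x) (mM e x y T) ∧
    (0 < (pM e x y T).κ ∧ 0 < (pM e x y T).c ∧ 0 < ifz (gM e x T) 1 (dig (bM x) T 3) ∧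
      0 < ifz (gM e x T) 1 (dig (bM x) T 4)) ∧
    1 + (pM e x y T).sys.R ≤ ifz (gM e x T) 1 (dig (bM x) T 4) *
      ifz (gM e x T) 1 (dig (bM x) T 3) ∧
    (pM e x y T).sys.J ≤ (ifz (gM e x T) 1 (dig (bM x) T 4) * ifz (gM e x T) 1 (dig (bM x) T 3) -
      (1 + (pM e x y T).sys.R)) * ((pM e x y T).sys.c * (pM e x y T).sys.K) ∧
    (0 < (pM e x y T).β ∧ (pM e x y T).β ^ (pM e x y T).Λ ≤ CT x ∧
      (3 * (pM e x y T).c) ^ (pM e x y T).D ≤ CT x ∧ 2 ^ (pM e x y T).κ ≤ CT x ∧
      (2 ^ (pM e x y T).κ) ^ (pM e x y T).D ≤ CT x ∧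
      2 ^ ((pM e x y T).sys.a * ((pM e x y T).sys.R + 2)) ≤ CT x ∧
      2 ^ (pM e x y T).sys.b ≤ CT x ∧ 2 ^ (pM e x y T).sys.σ ≤ CT x) ∧
    (gM e x T ≠ 0 → dig (bM x) T 0 ≤ ZL (Nat.log 2 x)) :=
  H.GUA _ _ _ _ x y _ _ _ _ _ _ _ _ _ _ rfl (pM e x y T) rfl

theorem two_pow_le_CT {x t : ℕ} (h : t ≤ 2000 * (Nat.log 2 x + 1)) : 2 ^ t ≤ CT x := by
  have h1 := Pool.Agent.Helper65.LinSpace.two_pow_log_le x 2000
  have h2 : 2 * 2000 = 4000 := by norm_num
  rw [h2] at h1
  exact le_trans (Nat.pow_le_pow_right (by norm_num) h) h1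

theorem qT_le (n : ℕ) : qT n ≤ n + 1 := by
  unfold qT
  have := Nat.div_le_self n (ll n)
  omega

section

variable (g eA eN eW st x y D K tp S c R : ℕ)

theorem prm_S : (prm g eA eN eW st x y D K tp S c R).S = ifz g 0 S := rfl
theorem prm_D : (prm g eA eN eW st x y D K tp S c R).D = ifz g 0 D := rfl
theorem prm_K : (prm g eA eN eW st x y D K tp S c R).K = ifz g 0 K := rfl
theorem prm_κ : (prm g eA eN eW st x y D K tp S c R).κ = kap (Nat.log 2 x) := rfl
theorem prm_tp : (prm g eA eN eW st x y D K tp S c R).tp = tp := rfl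
theorem prm_Λ : (prm g eA eN eW st x y D K tp S c R).Λ = LW (Nat.log 2 x) := rfl
theorem prm_β : (prm g eA eN eW st x y D K tp S c R).β = 2 ^ (2 * ll (Nat.log 2 x)) := rfl
theorem prm_B : (prm g eA eN eW st x y D K tp S c R).B = CR x := rfl
theorem prm_R : (prm g eA eN eW st x y D K tp S c R).sys.R = ifz g 0 R := rfl
theorem prm_c : (prm g eA eN eW st x y D K tp S c R).sys.c = ifz g 1 c := rfl

end

theorem ls_CT {α : Type} [Ctx α] {x : α → ℕ} (hx : LS x) : LS (fun a => CT (x a)) := by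
  unfold CT
  exact (LS.add hx (LS.const 2)).pow_const 4000

theorem ls_CR {α : Type} [Ctx α] {x : α → ℕ} (hx : LS x) : LS (fun a => CR (x a)) := by
  unfold CR
  exact (LS.add hx (LS.const 2)).pow_const 8000

attribute [local irreducible] CT CR

section LS

variable {α : Type} [Ctx α]

theorem ls_bM {x : α → ℕ} (hx : LS x) : LS (fun a => bM (x a)) := by
  unfold bM
  fun_prop

theorem LS.NM : LS MH.NM := by
  unfold MH.NM
  exact (ls_bM (x := fun x : ℕ => x) (by fun_prop)).pow_const 6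

theorem ls_dg {x T : α → ℕ} (hx : LS x) (hT : LS T) (i : ℕ) :
    LS (fun a => dig (bM (x a)) (T a) i) := LS.dig (ls_bM hx) hT (LS.const i)

theorem ls_gM (H : Parts) {e x T : α → ℕ} (he : LS e) (hx : LS x) (hT : LS T) :
    LS (fun a => gM (e a) (x a) (T a)) := by
  unfold gM
  exact H.LSG (by fun_prop) (by fun_prop) (by fun_prop) (ls_dg hx hT 0) (ls_dg hx hT 1)
    (ls_dg hx hT 2) (ls_dg hx hT 3) (ls_dg hx hT 4) (ls_dg hx hT 5)

theorem pfM (H : Parts) {e x y T : α → ℕ} (he : LS e) (hx : LS x) (hy : LS y) (hT : LS T) :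
    PFM (fun z => pM (e z) (x z) (y z) (T z)) (fun z => CT (x z)) := by
  have hg := ls_gM H he hx hT
  have hn : LS (fun z => Nat.log 2 (x z)) := LS.log2 hx
  have hκ : LS (fun z => kap (Nat.log 2 (x z))) := by
    unfold kap
    fun_prop
  have hB : LS (fun z => CR (x z)) := ls_CR hx
  have hβ : LS (fun z => 2 ^ (2 * ll (Nat.log 2 (x z)))) :=
    LS.pow_of_le (f := fun _ => 2) (LS.const 2) (LS.mul (LS.const 2) (LS.ll hn)) (ls_CT hx)
      fun z => two_pow_le_CT (by
        have h2 := ll_le (Nat.log 2 (x z))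
        omega)
  exact
    { eA := by
        simp only [pM, prm]
        fun_prop
      eN := by
        simp only [pM, prm]
        fun_prop
      eW := by
        simp only [pM, prm]
        fun_prop
      st := by
        simp only [pM, prm]
        fun_prop
      x := by
        simp only [pM, prm]
        exact hx
      y := by
        simp only [pM, prm]
        exact hy
      hΛ := by
        simp only [pM, prm]
        exact LS.LW hn
      hβ := by
        simp only [pM, prm]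
        exact hβ
      hB := by
        simp only [pM, prm]
        exact hB
      D := by
        simp only [pM, prm]
        exact LS.ifz hg (LS.const 0) (by fun_prop)
      K := by
        simp only [pM, prm]
        exact LS.ifz hg (LS.const 0) (by fun_prop)
      tp := by
        simp only [pM, prm]
        fun_prop
      S := by
        simp only [pM, prm]
        exact LS.ifz hg (LS.const 0) (ls_dg hx hT 0)
      κ := by
        simp only [pM, prm]
        exact hκ
      c := by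
        simp only [pM, prm]
        exact LS.ifz hg (LS.const 1) (ls_dg hx hT 1)
      R := by
        simp only [pM, prm]
        exact LS.ifz hg (LS.const 0) (ls_dg hx hT 2)
      bd := ls_CT hx
      b1 := fun z => (gua H (e z) (x z) (y z) (T z)).2.2.2.2.1.1
      b2 := fun z => (gua H (e z) (x z) (y z) (T z)).2.2.2.2.1.2.1
      b3 := fun z => (gua H (e z) (x z) (y z) (T z)).2.1.1
      b4 := fun z => (gua H (e z) (x z) (y z) (T z)).2.1.2.1
      b5 := fun z => (gua H (e z) (x z) (y z) (T z)).2.2.2.2.1.2.2.1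
      b6 := fun z => (gua H (e z) (x z) (y z) (T z)).2.2.2.2.1.2.2.2.1
      b7 := fun z => (gua H (e z) (x z) (y z) (T z)).2.2.2.2.1.2.2.2.2.1
      hC1 := fun z => (gua H (e z) (x z) (y z) (T z)).2.2.2.2.1.2.2.2.2.2.1
      hC2 := fun z => (gua H (e z) (x z) (y z) (T z)).2.2.2.2.1.2.2.2.2.2.2.1
      hC3 := fun z => (gua H (e z) (x z) (y z) (T z)).2.2.2.2.1.2.2.2.2.2.2.2 }

theorem lsmM (H : Parts) {e x y T : α → ℕ} (he : LS e) (hx : LS x) (hy : LS y) (hT : LS T) :
    LSM (fun z => mM (e z) (x z) (y z) (T z)) (fun z => CT (x z)) := by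
  have hg := ls_gM H he hx hT
  have hs : SLS (fun z => (pM (e z) (x z) (y z) (T z)).sys) (fun z => CT (x z)) :=
    H.MLM (pfM H he hx hy hT)
  refine H.LSS hs (LS.ifz hg (LS.const 1) (ls_dg hx hT 3)) (LS.ifz hg (LS.const 1) (ls_dg hx hT 4))
    (LS.ifz hg (LS.const 0) (ls_dg hx hT 5)) (fun z => (gua H (e z) (x z) (y z) (T z)).2.1.2.2.1)
    (fun z => (gua H (e z) (x z) (y z) (T z)).2.1.2.2.2) ?_ ?_
  · intro z
    have h1 := (gua H (e z) (x z) (y z) (T z)).1.h1
    rw [mM_def, ← nv_mach] at h1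
    refine two_pow_le_CT ?_
    have h3 := qT_le (Nat.log 2 (x z))
    omega
  · intro z
    have h1 := (gua H (e z) (x z) (y z) (T z)).1.h4
    rw [mM_def, mach_K, mach_σ, mach_E] at h1
    refine two_pow_le_CT ?_
    generalize (pM (e z) (x z) (y z) (T z)).sys.σ * ifz (gM (e z) (x z) (T z)) 1
      (dig (bM (x z)) (T z) 3) = t at *
    have h2 : t ≤ (ifz (gM (e z) (x z) (T z)) 0 (dig (bM (x z)) (T z) 5) + 1) * t :=
      Nat.le_mul_of_pos_left _ (Nat.succ_pos _)
    omega

end LS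

theorem LS.accM (P : Sim) (H : Parts) :
    LS (fun z : ℕ × ℕ × ℕ × ℕ => accM P z.1 z.2.1 z.2.2.1 z.2.2.2) := by
  have he : LS (fun z : ℕ × ℕ × ℕ × ℕ => z.1) := by fun_prop
  have hx : LS (fun z : ℕ × ℕ × ℕ × ℕ => z.2.1) := by fun_prop
  have hy : LS (fun z : ℕ × ℕ × ℕ × ℕ => z.2.2.1) := by fun_prop
  have hT : LS (fun z : ℕ × ℕ × ℕ × ℕ => z.2.2.2) := by fun_prop
  have hg := ls_gM H he hx hT
  have hpf := pfM H he hx hy hT
  have hsim := P.ls hx (lsmM H he hx hy hT) fun z => (gua H z.1 z.2.1 z.2.2.1 z.2.2.2).1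
  unfold MH.accM
  refine LS.mul hg (Pool.Agent.Helper54.OH.LS_accN ?_)
  unfold Prm.wq
  refine LS.mod hsim (LS.pow_of_le (f := fun _ => 2) (LS.const 2)
    (LS.add hpf.S (LS.const 1)) hpf.bd fun z => ?_)
  refine le_trans (Nat.pow_le_pow_right (by norm_num) ?_) (hpf.hC2 z)
  generalize pM z.1 z.2.1 z.2.2.1 z.2.2.2 = m
  unfold Sys.b Prm.sys
  dsimp only
  omega

/-! ### The machines -/

/-- The state at the end of the simulation. -/
theorem sim_val (H : Parts) (m : Prm) (E G d : ℕ) (hκ : 0 < m.κ) (hc : 0 < m.c)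
    (h6 : 1 + m.sys.R ≤ G * E) (h7 : m.sys.J ≤ (G * E - (1 + m.sys.R)) * (m.sys.c * m.sys.K)) :
    m.wq ((m.sys.mach E G d).T d 0) = m.wq (m.sys.conf (d * (m.sys.R * m.sys.c))).1 := by
  obtain ⟨h8, h9⟩ := H.OKM m hκ hc
  rw [H.TRU m.sys E G d h8 h6 h7 h9 d 0]
  have h12 : 2 ^ m.sys.sg = 2 ^ (m.S + 1) * 2 ^ (m.κ * (m.K * m.D)) := by
    rw [← pow_add]
    rfl
  generalize (tab (2 ^ m.sys.τ) m.sys.J fun j =>
    (m.sys.conf (d * (m.sys.R * m.sys.c))).2 (m.sys.nb (0 % 2 ^ m.sys.σ) j)) = t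
  generalize (m.sys.conf (d * (m.sys.R * m.sys.c))).1 = u
  unfold Prm.wq
  rw [h12, mul_assoc, Nat.add_mul_mod_self_left]

/-- The value of the simulation. -/
theorem sim_eq (P : Sim) (H : Parts) (e x y T : ℕ) :
    (pM e x y T).wq (P.sim (Nat.log 2 x) (mM e x y T)) =
      (pM e x y T).wq ((pM e x y T).sys.conf (ifz (gM e x T) 0 (dig (bM x) T 5) *
        ((pM e x y T).sys.R * (pM e x y T).sys.c))).1 := by
  obtain ⟨h1, ⟨h2, h3, h4, h5⟩, h6, h7, -, -⟩ := gua H e x y T
  have hok : (mM e x y T).Ok :=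
    (lsmM H (e := fun _ : ℕ => e) (x := fun _ => x) (y := fun _ => y) (T := fun _ => T)
      (LS.const _) (LS.const _) (LS.const _) (LS.const _)).ok 0
  rw [P.eq _ _ hok h1, ← sim_val H (pM e x y T) _ _ _ h2 h3 h6 h7, mM_def, mach_K, mach_root]

/-- The parameters of the theorem are those of `ParM`. -/
theorem parM {D K : ℕ} (A : MultiHead D K) {eA eN eW c0 : ℕ} {w y : List Bool} {g tp S c R : ℕ}
    (hg : g ≠ 0) (htp : tp = tab (K + 1) K fun i => if h : i < K then (A.tape ⟨i, h⟩ : ℕ) else 0)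
    (h5 : c0 * (S + 1) ≤ LW w.length ∧ c0 * (S + 1) + LW w.length ≤ 2 ^ (2 * ll w.length) ∧
      ∀ x, Nat.log 2 x = w.length → 2 ^ (S + 1) ≤ CR x) :
    ParM A eA eN eW c0 w y (prm g eA eN eW (num A.start) (num w) (num y) D K tp S c R) := by
  have hlog : Nat.log 2 (num w) = w.length := Pool.Agent.Helper65.LinSpace.log_num w
  obtain ⟨h6, h7, h8⟩ := h5
  refine ⟨rfl, rfl, rfl, rfl, rfl, rfl, ?_, ?_, ?_, ?_, ?_, ?_, ?_⟩
  · rw [prm_D, ifz_ne hg]
  · rw [prm_K, ifz_ne hg]
  · intro i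
    unfold Prm.tpN
    rw [prm_K, prm_tp, ifz_ne hg, htp, dig_tab _ i.2, dif_pos i.2]
    intro j hj
    rw [dif_pos hj]
    have := (A.tape ⟨j, hj⟩).2
    omega
  · rw [prm_κ]
    unfold kap
    omega
  · rw [prm_S, prm_Λ, ifz_ne hg, hlog]
    exact h6
  · rw [prm_S, prm_Λ, prm_β, ifz_ne hg, hlog]
    exact h7
  · rw [prm_S, prm_B, ifz_ne hg]
    exact h8 _ hlog

/-- Every machine has a code. -/
theorem exists_goodM (P : Sim) (H : Parts) {D K : ℕ} (hD : 0 < D) (hK : 0 < K)
    (A : MultiHead D K) (C : ℝ) : ∃ e n₀ : ℕ, ∀ w y : List Bool, n₀ ≤ w.length →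
    (∀ T < NM (num w), accM P e (num w) (num y) T ≠ 0 → ∃ r, A.AcceptsAt w y r) ∧
    (A.Within C w y → ∃ T < NM (num w), accM P e (num w) (num y) T ≠ 0) := by
  classical
  obtain ⟨eA, eN, eW, c0, hA⟩ := H.MCM A
  obtain ⟨n₀, hn₀⟩ := eventually_atTop.1 (H.EVM c0)
  obtain ⟨n₁, hn₁⟩ := eventually_atTop.1 (H.PRM D K C hD hK)
  set tp : ℕ := tab (K + 1) K fun i => if h : i < K then (A.tape ⟨i, h⟩ : ℕ) else 0 with htp
  refine ⟨Nat.pair D (Nat.pair K (Nat.pair tp (Nat.pair eA (Nat.pair eN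
    (Nat.pair eW (num A.start)))))), n₀ + n₁, fun w y hw => ?_⟩
  have hlog : Nat.log 2 (num w) = w.length := Pool.Agent.Helper65.LinSpace.log_num w
  have hb : bM (num w) = 4 * w.length + 6 := by
    unfold bM
    rw [hlog]
  set e := Nat.pair D (Nat.pair K (Nat.pair tp (Nat.pair eA (Nat.pair eN
    (Nat.pair eW (num A.start)))))) with he
  have hg : ∀ T, gM e (num w) T = gd w.length D K (dig (bM (num w)) T 0) (dig (bM (num w)) T 1)
      (dig (bM (num w)) T 2) (dig (bM (num w)) T 3) (dig (bM (num w)) T 4)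
      (dig (bM (num w)) T 5) := by
    intro T
    unfold gM
    rw [he]
    simp only [Nat.unpair_pair, hlog]
  have hp : ∀ T, pM e (num w) (num y) T = prm (gM e (num w) T) eA eN eW (num A.start) (num w)
      (num y) D K tp (dig (bM (num w)) T 0) (dig (bM (num w)) T 1) (dig (bM (num w)) T 2) := by
    intro T
    unfold pM
    rw [he]
    simp only [Nat.unpair_pair]
  have hle : ∀ v, accN v = 0 ∨ accN v = 1 := by
    intro v
    unfold accN lt01
    rcases Nat.mod_two_eq_zero_or_one v with h | h <;> rw [h] <;> split_ifs <;> simp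
  constructor
  · intro T _ hne
    unfold accM at hne
    rw [sim_eq P H] at hne
    generalize hcf : ifz (gM e (num w) T) 0 (dig (bM (num w)) T 5) *
        ((pM e (num w) (num y) T).sys.R * (pM e (num w) (num y) T).sys.c) = t at hne
    have hgne : gM e (num w) T ≠ 0 := fun h => hne (by rw [h, zero_mul])
    have hS : dig (bM (num w)) T 0 ≤ ZL w.length := by
      have := (gua H e (num w) (num y) T).2.2.2.2.2 hgne
      rwa [hlog] at this
    have hP : ParM A eA eN eW c0 w y (pM e (num w) (num y) T) := by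
      rw [hp]
      exact parM A hgne htp (hn₀ w.length (by omega) _ hS)
    refine (hA w y _ hP).1 t ?_
    rcases hle ((pM e (num w) (num y) T).wq ((pM e (num w) (num y) T).sys.conf t).1) with h | h
    · exact absurd (by rw [h, mul_zero]) hne
    · exact h
  · rintro ⟨r, s, hr, hs, hfit, hacc⟩
    obtain ⟨q1, q2, c, R, E, G, d, q3, q4, q5, q6, q7, q8, q9⟩ :=
      hn₁ w.length (by omega) r s hr hs
    -- the code of the parameters
    set f : ℕ → ℕ := fun i => if i = 0 then s else if i = 1 then c else if i = 2 then R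
      else if i = 3 then E else if i = 4 then G else d with hf
    have hfl : ∀ i < 6, f i < bM (num w) := by
      intro i _
      rw [hf, hb]
      dsimp only
      split_ifs <;> assumption
    set T := tab (bM (num w)) 6 f with hT
    have d0 : dig (bM (num w)) T 0 = s := dig_tab hfl (by norm_num)
    have d1 : dig (bM (num w)) T 1 = c := dig_tab hfl (by norm_num)
    have d2 : dig (bM (num w)) T 2 = R := dig_tab hfl (by norm_num)
    have d3 : dig (bM (num w)) T 3 = E := dig_tab hfl (by norm_num)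
    have d4 : dig (bM (num w)) T 4 = G := dig_tab hfl (by norm_num)
    have d5 : dig (bM (num w)) T 5 = d := dig_tab hfl (by norm_num)
    have hgT : gM e (num w) T = gd w.length D K s c R E G d := by
      rw [hg, d0, d1, d2, d3, d4, d5]
    have hgne : gM e (num w) T ≠ 0 := by
      rw [hgT]
      exact q3
    refine ⟨T, tab_lt hfl, ?_⟩
    unfold accM
    rw [sim_eq P H]
    have hS : s ≤ ZL w.length := by
      have := (gua H e (num w) (num y) T).2.2.2.2.2 hgne
      rwa [hlog, d0] at this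
    have hP : ParM A eA eN eW c0 w y (pM e (num w) (num y) T) := by
      rw [hp, d0]
      exact parM A hgne htp (hn₀ w.length (by omega) _ hS)
    have eS : (pM e (num w) (num y) T).S = s := by
      rw [hp, prm_S, ifz_ne hgne, d0]
    have eR : (pM e (num w) (num y) T).sys.R = R := by
      rw [hp, prm_R, ifz_ne hgne, d2]
    have ec : (pM e (num w) (num y) T).sys.c = c := by
      rw [hp, prm_c, ifz_ne hgne, d1]
    have eκ : (pM e (num w) (num y) T).κ = kap w.length := by
      rw [hp, prm_κ, hlog]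
    rw [(hA w y _ hP).2 r _ ?_ hacc ?_ ?_]
    · rw [mul_one]
      exact hgne
    · rw [eS]
      exact hfit
    · rw [eκ]
      exact q1
    · rw [ifz_ne hgne, d5, eR, ec]
      exact q4

/-- **Average-case hardness for machines with several heads on tapes of any dimension.** -/
theorem mh_main (P : Sim) (H : Parts) (c : ℕ) :
    ∃ (L : Set (List Bool)) (s : ℕ → List Bool), DLINSPACE L ∧
      (∀ n, (s n).length = n) ∧
      (∀ w, w ∈ L ↔ Odd ((List.zipWith and (s w.length) w).count true)) ∧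
      ∀ (D K : ℕ), 0 < D → 0 < K → ∀ (A : MultiHead D K) (C : ℝ), ∃ c' : ℝ,
        ∀ (n : ℕ) (α : List Bool), ∀ M, M = L ∨ M = Lᶜ →
        ({w : List Bool | w.length = n ∧
          (Alt true (c * n) (fun v => ∃ r, A.AcceptsAt w (α ++ v) r) → w ∈ M) ∧
          (w ∈ M → Alt true (c * n) fun v => A.Within C w (α ++ v))}.ncard : ℝ) ≤
          2 ^ n / 2 + c' * ((min α.length (n - α.length) : ℕ) + 1) *
            2 ^ (((n : ℝ) + α.length) / 2) := by
  obtain ⟨L, s, h1, h2, h3, h4⟩ := Pool.Agent.Helper78.Gen2.alt_main (accM P) NM (LS.accM P H)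
    LS.NM c
  refine ⟨L, s, h1, h2, h3, fun D K hD hK A C => ?_⟩
  have h := h4 (fun w y => ∃ r, A.AcceptsAt w y r) (A.Within C) (exists_goodM P H hD hK A C)
  simp only [Pool.Agent.Helper28.Few.alt_iff] at h
  exact h

/-- Languages accepted by fast machines with several heads are in linear space. -/
theorem mh_lin (P : Sim) (H : Parts) (c : ℕ) {D K : ℕ} (hD : 0 < D) (hK : 0 < K)
    (A : MultiHead D K) (L : Set (List Bool)) (C : ℝ)
    (h1 : ∀ w, Alt true (c * w.length) (fun v => ∃ r, A.AcceptsAt w v r) → w ∈ L)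
    (h2 : ∀ w ∈ L, Alt true (c * w.length) (A.Within C w)) : DLINSPACE L :=
  Pool.Agent.Helper78.Gen2.alt_lin (accM P) NM (LS.accM P H) LS.NM c L
    (fun w y => ∃ r, A.AcceptsAt w y r) (A.Within C) (exists_goodM P H hD hK A C)
    (fun w h => h1 w ((Pool.Agent.Helper28.Few.alt_iff _ _ _).1 h))
    (fun w hw => (Pool.Agent.Helper28.Few.alt_iff _ _ _).2 (h2 w hw))

end Pool.Agent.Helper20.MH
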