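import Pool.Agent.Helper20.MH.Defs
import Pool.Agent.Helper65.RT.Goals
import Pool.Agent.Helper65.OH.Num
import Pool.Agent.Helper28.Long.Par

/-!
# Machines with several heads: the machines on numbers

A system (`Sys`) is a machine with `K` heads on numbers, together with neighbourhoods: to every state
`u` belongs the name `B u` of a neighbourhood, and the neighbourhood with the name `x` consists of the
cells `nb x j`, `j < J`. During the next `c` steps the heads do not leave the neighbourhood. The
parallel machine `Sys.mach` simulates `R * c` steps of the system in every phase: after `k` phases the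
register `x` contains the state at the time `k * (R * c)` and the contents of the cells of the
neighbourhood `x` at this time. In a phase the processor `x` first reads the register `x` and notes
the state; then it simulates `R` blocks of `c` steps; for each block it reads the register of the
neighbourhood of the present state and notes the contents which the heads read in the `c` steps;
finally it reads the register `x` again and again, and notes its contents in pieces.
-/

namespace Pool.Agent.Helper20.MH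

open Pool.Agent.Helper65.LinSpace Pool.Agent.Helper78.Mpc Pool.Agent.Helper28.Ram Finset
open Pool.Agent.Helper65.OH (kap)
open Pool.Agent.Helper28.Long (ZL)
open Pool.Agent.Helper65.RT (qT)

/-- A machine with `K` heads on numbers, with neighbourhoods. States are smaller than `2 ^ sg`,
contents smaller than `2 ^ τ`, names of neighbourhoods smaller than `2 ^ σ`. -/
structure Sys where
  sg : ℕ
  τ : ℕ
  K : ℕ
  J : ℕ
  σ : ℕ
  c : ℕ
  R : ℕ
  u0 : ℕ
  M0 : ℕ
  cell : ℕ → ℕ → ℕ
  N : ℕ → ℕ → ℕ
  W : ℕ → ℕ → ℕ → ℕ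
  B : ℕ → ℕ
  nb : ℕ → ℕ → ℕ

/-- The bounds. -/
structure Sys.Ok (s : Sys) : Prop where
  hsg : 0 < s.sg
  hτ : 0 < s.τ
  hσ : 0 < s.σ
  hc : 0 < s.c
  hu0 : s.u0 < 2 ^ s.sg
  hM0 : s.M0 < 2 ^ s.τ
  hN : ∀ u v, s.N u v < 2 ^ s.sg
  hW : ∀ u v i, s.W u v i < 2 ^ s.τ
  hB : ∀ u, s.B u < 2 ^ s.σ

namespace Sys

variable (s : Sys)

/-- The contents which the heads read in the state `u`, the contents of the cells being `M`. -/
def rd (M : ℕ → ℕ) (u : ℕ) : ℕ := tab (2 ^ s.τ) s.K fun i => M (s.cell u i)

/-- The content of the cell `z` after a step in the state `u` in which the heads read `v`, if it was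
`r` before. -/
def wr (u v z r : ℕ) : ℕ := nrec r (fun i r => ifz (eq01 (s.cell u i) z) r (s.W u v i)) s.K

/-- State and contents after `t` steps. -/
def conf (s : Sys) : ℕ → ℕ × (ℕ → ℕ)
  | 0 => (s.u0, fun _ => s.M0)
  | t + 1 => (s.N (s.conf t).1 (s.rd (s.conf t).2 (s.conf t).1), fun z =>
      s.wr (s.conf t).1 (s.rd (s.conf t).2 (s.conf t).1) z ((s.conf t).2 z))

/-! ### The simulation of a phase

`Z` codes the digests in base `2 ^ a`. The digest number `0` is the state at the start of the phase,
the digest number `1 + k`, `k < R`, codes the contents which are read in the steps `k c, …, k c + c - 1`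
of the phase, the digests after that code the contents of the cells of the neighbourhood `x` at the
start of the phase, `c K` cells in each digest. -/

/-- The number of bits of the digests. -/
def a : ℕ := s.sg + s.c * (s.K * s.τ)

/-- The number of bits of the values. -/
def b : ℕ := s.sg + s.J * s.τ

/-- The contents which are read in the step `t` of the phase. -/
def vn (Z t : ℕ) : ℕ := dig (2 ^ (s.K * s.τ)) (dig (2 ^ s.a) Z (1 + t / s.c)) (t % s.c)

/-- The state after `t` steps of the phase. -/
def uz (Z t : ℕ) : ℕ :=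
  nrec (dig (2 ^ s.a) Z 0 % 2 ^ s.sg) (fun t u => s.N u (s.vn Z t)) t

/-- The content of the cell `z` after `t` steps of the phase, if it is `r` at the start. -/
def ov (Z t z r : ℕ) : ℕ := nrec r (fun t r => s.wr (s.uz Z t) (s.vn Z t) z r) t

/-- The content of the cell `z`, if the value of the neighbourhood `x` is `v`. -/
def old (x v z : ℕ) : ℕ :=
  nrec 0 (fun j r => ifz (eq01 (s.nb x j) z) r (dig (2 ^ s.τ) (v / 2 ^ s.sg) j)) s.J

/-- The digests before the event `e`, and the first part `w` of the digest of the event `e`. -/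
def ext (e Z w : ℕ) : ℕ := Z + 2 ^ (s.a * min e (s.R + 1)) * w

/-- The contents which are read in the step `t` of the block `e - 1`, if `w` codes those which are
read in the steps before `t` of this block and the value of the neighbourhood is `v`. -/
def rs (e Z v w t : ℕ) : ℕ :=
  tab (2 ^ s.τ) s.K fun i => s.ov (s.ext e Z w) ((e - 1) * s.c + t)
    (s.cell (s.uz (s.ext e Z w) ((e - 1) * s.c + t)) i)
    (s.old (s.B (s.uz Z ((e - 1) * s.c))) v
      (s.cell (s.uz (s.ext e Z w) ((e - 1) * s.c + t)) i))

/-- The digest of the event `e`, `1 ≤ e ≤ R`. -/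
def blk (e Z v : ℕ) : ℕ :=
  nrec 0 (fun t w => w + 2 ^ (s.K * s.τ * t) * s.rs e Z v w t) s.c

/-- The name which is read in the event `e`. -/
def fq (x e Z : ℕ) : ℕ :=
  ifz e (x % 2 ^ s.σ) (ifz (le01 e s.R) (x % 2 ^ s.σ) (s.B (s.uz Z ((e - 1) * s.c))))

/-- The digest of the event `e`, the value which is read being `v`. -/
def fg (_x e Z v : ℕ) : ℕ :=
  ifz e (v % 2 ^ s.sg)
    (ifz (le01 e s.R) (dig (2 ^ (s.c * (s.K * s.τ))) (v / 2 ^ s.sg) (e - 1 - s.R)) (s.blk e Z v)) %
      2 ^ s.a

/-- The content of the cell number `j` of the neighbourhood at the start of the phase. -/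
def pc (Z j : ℕ) : ℕ :=
  dig (2 ^ s.τ) (dig (2 ^ s.a) Z (1 + s.R + j / (s.c * s.K))) (j % (s.c * s.K))

/-- The value of the name `x` at the end of the phase. -/
def fo (x Z : ℕ) : ℕ :=
  s.uz Z (s.R * s.c) + 2 ^ s.sg * tab (2 ^ s.τ) s.J fun j =>
    s.ov Z (s.R * s.c) (s.nb (x % 2 ^ s.σ) j) (s.pc Z j)

/-- The value of a name at the start of the computation. -/
def f0 : ℕ := s.u0 + 2 ^ s.sg * tab (2 ^ s.τ) s.J fun _ => s.M0

/-- The parallel machine, with `G` groups of `E` events and `d` phases. -/
def mach (E G d : ℕ) : Pool.Agent.Helper65.RT.Mach where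
  σ := s.σ
  a := s.a
  b := s.b
  E := E
  G := G
  K := d
  q := s.fq
  g := s.fg
  o := s.fo
  t0 := fun _ => s.f0
  root := 0

end Sys

/-! ### The systems of the machines

Words of length at most `S` are coded by their numbers; `0` means a failure (a word was too long, or
a head has left the box). The positions of the heads have the coordinates `h i k + 2 ^ (κ - 1) < 2 ^ κ`.
The tapes are divided into cubes of side `c`. The cell of the tape `τ` with the coordinates `z k` has
the number `τ + (K + 1) * tab (2 ^ κ) D z`. -/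

/-- The parameters. -/
structure Prm where
  eA : ℕ
  eN : ℕ
  eW : ℕ
  st : ℕ
  x : ℕ
  y : ℕ
  Λ : ℕ
  β : ℕ
  B : ℕ
  D : ℕ
  K : ℕ
  tp : ℕ
  S : ℕ
  κ : ℕ
  c : ℕ
  R : ℕ

namespace Prm

variable (m : Prm)

/-- The state of the machine. -/
def wq (q : ℕ) : ℕ := q % 2 ^ (m.S + 1)

/-- The coordinate `k % D` of the head `k / D`. -/
def cq (q k : ℕ) : ℕ := dig (2 ^ m.κ) (q / 2 ^ (m.S + 1)) k

/-- The code of a state and of positions. -/
def mk' (u : ℕ) (f : ℕ → ℕ) : ℕ := u + 2 ^ (m.S + 1) * tab (2 ^ m.κ) (m.K * m.D) f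

/-- The number of the address, `0` if it is too long. -/
def adN (q : ℕ) : ℕ := capN m.S (fnN m.eA m.S m.Λ m.β m.B (m.wq q))

/-- The address. -/
def adr (q : ℕ) : ℕ := m.adN q - 2 ^ Nat.log 2 (m.adN q)

/-- The number of the word `letW`. -/
def lw (c : ℕ) : ℕ := ifz c 4 (ifz (c - 1) 5 7)

/-- The content which the head `i` reads. -/
def vi (v i : ℕ) : ℕ := dig (2 ^ (m.S + 1)) v i

/-- The number of the word `⟨v₁⟩ … ⟨v_K⟩`. -/
def vec (v : ℕ) : ℕ := nrec 1 (fun i r => catN r (sdN (m.vi v i))) m.K

/-- The number of the word which the function `next` gets. -/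
def inpN (q v : ℕ) : ℕ :=
  catN (sdN (m.wq q)) (catN (lw (letN m.x (m.adr q))) (catN (lw (letN m.y (m.adr q))) (m.vec v)))

/-- The new state. -/
def nu (q v : ℕ) : ℕ := capN m.S (fnN m.eN m.S m.Λ m.β m.B (m.inpN q v))

/-- The new content of the cell of the head `i`. -/
def nw (q v i : ℕ) : ℕ :=
  capN m.S (fnN m.eW m.S m.Λ m.β m.B (catN (sdN (bitsN i)) (m.inpN q v)))

/-- The letter for `+ 1`. -/
def pl (u k : ℕ) : ℕ := eq01 (letN u (2 * k + 1)) 2

/-- The letter for `- 1`. -/
def mi (u k : ℕ) : ℕ := eq01 (letN u (2 * k + 2)) 2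

/-- The number of the coordinates in which a head leaves the box. -/
def viol (q u : ℕ) : ℕ :=
  ∑ k ∈ range (m.K * m.D), (1 - le01 (mi u k) (m.cq q k + pl u k) *
    lt01 (m.cq q k + pl u k - mi u k) (2 ^ m.κ))

/-- Nonzero if the step is not possible. -/
def bad (q v : ℕ) : ℕ :=
  eq01 (m.adN q) 0 + eq01 (m.nu q v) 0 + m.viol q (m.nu q v) + ∑ i ∈ range m.K, eq01 (m.vi v i) 0

/-- The new state and the new positions. -/
def fN (q v : ℕ) : ℕ :=
  ifz (accN (m.wq q))
    (ifz (m.bad q v)
      (m.mk' (m.nu q v) fun k => (m.cq q k + pl (m.nu q v) k - mi (m.nu q v) k) % 2 ^ m.κ)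
      (m.mk' 0 (m.cq q)))
    (m.mk' (m.wq q) (m.cq q))

/-- The new content of the cell of the head `i`. -/
def fW (q v i : ℕ) : ℕ := ifz (accN (m.wq q) + m.bad q v) (m.nw q v i) (m.vi v i)

/-- The tape of the head `i`. -/
def tpN (i : ℕ) : ℕ := dig (m.K + 1) m.tp i

/-- The number of the cell of the head `i`. -/
def cell (q i : ℕ) : ℕ :=
  m.tpN i + (m.K + 1) * tab (2 ^ m.κ) m.D fun k => m.cq q (i * m.D + k)

/-- The name of the neighbourhood: the cubes in which the heads are. -/
def fB (q : ℕ) : ℕ := tab (2 ^ m.κ) (m.K * m.D) fun k => m.cq q k / m.c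

/-- The cell number `j` of the neighbourhood `x`: one of the `(3 c) ^ D` cells in the cube of the
head `j % K` and the cubes around it. -/
def nb (x j : ℕ) : ℕ :=
  m.tpN (j % m.K) + (m.K + 1) * tab (2 ^ m.κ) m.D fun k =>
    (dig (2 ^ m.κ) x (j % m.K * m.D + k) * m.c + dig (3 * m.c) (j / m.K) k - m.c) % 2 ^ m.κ

/-- The system. -/
def sys : Sys where
  sg := m.S + 1 + m.κ * (m.K * m.D)
  τ := m.S + 1
  K := m.K
  J := m.K * (3 * m.c) ^ m.D
  σ := m.κ * (m.K * m.D) + 1
  c := m.c
  R := m.R
  u0 := m.mk' (capN m.S m.st) fun _ => 2 ^ (m.κ - 1)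
  M0 := 1
  cell := m.cell
  N := m.fN
  W := m.fW
  B := m.fB
  nb := m.nb

end Prm

/-! ### The parameters of the simulation -/

/-- `1` if the parameters `S`, `c`, `R`, `E`, `G`, `d` are admissible for a machine with `K` heads in
dimension `D`, for inputs of length `n`. -/
def gd (n D K S c R E G d : ℕ) : ℕ :=
  lt01 0 c * (lt01 0 E * (lt01 0 G * (le01 D (ll n) * (le01 S (ZL n) * (le01 (1 + R) (G * E) *
    (le01 (capPow (3 * c) D (4 * (n + 1))) (4 * (n + 1)) *
    (le01 (K * capPow (3 * c) D (4 * (n + 1))) ((G * E - (1 + R)) * (c * K)) *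
    (le01 (G * ((S + 1 + kap n * (K * D) + c * (K * (S + 1))) * E) +
      E * (S + 1 + kap n * (K * D) + K * capPow (3 * c) D (4 * (n + 1)) * (S + 1))) (4 * qT n) *
    (le01 (d * (G + 2)) (4 * qT n) *
    (le01 ((d + 1) * (kap n * (K * D) + 1)) (4 * qT n) *
      le01 ((d + 1) * ((kap n * (K * D) + 1) * E)) (4 * (n + 1))))))))))))

/-- The parameters, where those which are not admissible are replaced by trivial ones; `g` is the
value of `gd`. -/
def prm (g eA eN eW st x y D K tp S c R : ℕ) : Prm where
  eA := eA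
  eN := eN
  eW := eW
  st := st
  x := x
  y := y
  Λ := LW (Nat.log 2 x)
  β := 2 ^ (2 * ll (Nat.log 2 x))
  B := CR x
  D := ifz g 0 D
  K := ifz g 0 K
  tp := tp
  S := ifz g 0 S
  κ := kap (Nat.log 2 x)
  c := ifz g 1 c
  R := ifz g 0 R

end Pool.Agent.Helper20.MH
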