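import Pool.Agent.Helper81.MH.Goals

/-! # Project MH (MP_340b06_lc), packet TCL: the family coded by types is closed -/

set_option autoImplicit false

namespace Pool.Agent.Helper20.MH

open Set Cardinal Filter
open Pool.Agent.Helper81.SB Pool.Agent.Helper81.MH

variable {x : W → Set ℕ} {e : W → ℕ → W}

theorem NN_le (c : W) (t : ℕ → Bool) (κ : ℕ) : NN x e c t κ ≤ κ := by
  classical
  unfold NN
  exact Nat.find_min' _ (Or.inl (Nat.le_succ κ))

theorem NN_congr (c : W) {t t' : ℕ → Bool} {κ : ℕ} (h : ∀ j < κ, t j = t' j) :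
    NN x e c t κ = NN x e c t' κ := by
  classical
  unfold NN
  refine Nat.find_congr' ?_
  intro j
  by_cases hj : κ ≤ j + 1
  · simp [hj]
  · have h1 : t j = t' j := h j (by omega)
    simp only [Dis, h1]

theorem itr_le (c : ℕ → W) (T : ℕ → ℕ → Bool) (k : ℕ) (i : ℕ) : itr x e c T k i ≤ k := by
  induction i with
  | zero => exact le_rfl
  | succ i ih => exact (NN_le (c i) (T i) _).trans ih

theorem itr_congr (c : ℕ → W) {T T' : ℕ → ℕ → Bool} {k : ℕ}
    (h : ∀ i ≤ k, ∀ j ≤ k, T i j = T' i j) :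
    ∀ i ≤ k + 1, itr x e c T k i = itr x e c T' k i := by
  intro i
  induction i with
  | zero => intro _; rfl
  | succ i ih =>
    intro hi
    have h1 := ih (by omega)
    change NN x e (c i) (T i) (itr x e c T k i) = NN x e (c i) (T' i) (itr x e c T' k i)
    rw [← h1]
    refine NN_congr (c i) ?_
    intro j hj
    exact h i (by omega) j (hj.le.trans (itr_le c T k i))

theorem nst_congr (c : ℕ → W) {T T' : ℕ → ℕ → Bool} {θ θ' : ℕ → Bool} {k : ℕ}
    (h : ∀ i ≤ k, ∀ j ≤ k, T i j = T' i j) (h' : ∀ i ≤ k, θ i = θ' i) :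
    nst x e c T θ k = nst x e c T' θ' k := by
  classical
  unfold nst
  refine Nat.find_congr' ?_
  intro i
  by_cases hi : k ≤ i
  · simp [hi]
  · have h1 : itr x e c T k (i + 1) = itr x e c T' k (i + 1) := itr_congr c h _ (by omega)
    have h2 : T i (itr x e c T' k (i + 1)) = T' i (itr x e c T' k (i + 1)) :=
      h i (by omega) _ (itr_le c T' k (i + 1))
    rw [h1, h2, h' i (by omega)]

theorem card_pre_le (a : Set ℕ) (k : ℕ) : (pre a k).card ≤ k := by
  classical
  unfold pre
  exact (Finset.card_filter_le _ _).trans (by simp)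

/-- packet TCL -/
theorem goal_TCL : Goal_TCL := by
  classical
  intro x e c f a ha happ
  have happ' : ∀ n, ∃ d : Set ℕ, ∃ (T : ℕ → ℕ → Bool) (θ : ℕ → Bool), (∀ m < n, m ∈ d ↔ m ∈ a) ∧
      ∀ k ∈ d, (∀ m ≤ (pre d k).card, (pre d k).card ≤ itr x e c T k (m + 1) ∧
        T m (itr x e c T k (m + 1)) = θ m) ∧
      f (nst x e c T θ k - 1) = Encodable.encode (pre d k) := by
    intro n
    obtain ⟨d, ⟨_, T, θ, hd⟩, hda⟩ := happ n
    exact ⟨d, T, θ, hda, hd⟩
  choose d T θ hda hd using happ'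
  let U : Filter ℕ := (hyperfilter ℕ : Ultrafilter ℕ)
  let T' : ℕ → ℕ → Bool := fun i j => decide (∀ᶠ n in (hyperfilter ℕ : Filter ℕ), T n i j = true)
  let θ' : ℕ → Bool := fun i => decide (∀ᶠ n in (hyperfilter ℕ : Filter ℕ), θ n i = true)
  have hT : ∀ i j, ∀ᶠ n in (hyperfilter ℕ : Filter ℕ), T n i j = T' i j := by
    intro i j
    by_cases h : ∀ᶠ n in (hyperfilter ℕ : Filter ℕ), T n i j = true
    · have h1 : T' i j = true := decide_eq_true h
      rw [h1]; exact h
    · have h1 : T' i j = false := decide_eq_false h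
      rw [h1]
      have h2 := (Ultrafilter.eventually_not (f := hyperfilter ℕ)).2 h
      filter_upwards [h2] with n hn
      simpa using hn
  have hθ : ∀ i, ∀ᶠ n in (hyperfilter ℕ : Filter ℕ), θ n i = θ' i := by
    intro i
    by_cases h : ∀ᶠ n in (hyperfilter ℕ : Filter ℕ), θ n i = true
    · have h1 : θ' i = true := decide_eq_true h
      rw [h1]; exact h
    · have h1 : θ' i = false := decide_eq_false h
      rw [h1]
      have h2 := (Ultrafilter.eventually_not (f := hyperfilter ℕ)).2 h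
      filter_upwards [h2] with n hn
      simpa using hn
  refine ⟨ha, T', θ', ?_⟩
  intro k hk
  have h1 : ∀ᶠ n in (hyperfilter ℕ : Filter ℕ), ∀ i ∈ Finset.range (k + 1), ∀ j ∈ Finset.range (k + 1),
      T n i j = T' i j := by
    rw [Filter.eventually_all_finset]
    intro i _
    rw [Filter.eventually_all_finset]
    intro j _
    exact hT i j
  have h2 : ∀ᶠ n in (hyperfilter ℕ : Filter ℕ), ∀ i ∈ Finset.range (k + 1), θ n i = θ' i := by
    rw [Filter.eventually_all_finset]
    intro i _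
    exact hθ i
  have h3 : ∀ᶠ n in (hyperfilter ℕ : Filter ℕ), k < n := by
    have : ∀ᶠ n in (atTop : Filter ℕ), k < n := eventually_gt_atTop k
    exact this.filter_mono (by rw [← Nat.cofinite_eq_atTop]; exact hyperfilter_le_cofinite)
  obtain ⟨n, hn1, hn2, hn3⟩ := (h1.and (h2.and h3)).exists
  have g1 : ∀ i ≤ k, ∀ j ≤ k, T n i j = T' i j := fun i hi j hj =>
    hn1 i (Finset.mem_range.2 (by omega)) j (Finset.mem_range.2 (by omega))
  have g2 : ∀ i ≤ k, θ n i = θ' i := fun i hi => hn2 i (Finset.mem_range.2 (by omega))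
  have hkd : k ∈ d n := (hda n k hn3).2 hk
  have hpre : pre (d n) k = pre a k := by
    ext m
    rw [mem_pre, mem_pre]
    constructor
    · rintro ⟨hm, hm'⟩; exact ⟨hm, (hda n m (hm.trans hn3)).1 hm'⟩
    · rintro ⟨hm, hm'⟩; exact ⟨hm, (hda n m (hm.trans hn3)).2 hm'⟩
  have hc := card_pre_le a k
  obtain ⟨hA, hB⟩ := hd n k hkd
  rw [hpre] at hA hB
  refine ⟨?_, ?_⟩
  · intro m hm
    obtain ⟨hA1, hA2⟩ := hA m hm
    have hi : itr x e c (T n) k (m + 1) = itr x e c T' k (m + 1) :=
      itr_congr c g1 _ (by omega)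
    rw [hi] at hA1 hA2
    refine ⟨hA1, ?_⟩
    rw [← g1 m (by omega) _ (itr_le c T' k (m + 1)), hA2]
    exact g2 m (by omega)
  · rw [← nst_congr c g1 g2]
    exact hB

end Pool.Agent.Helper20.MH
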